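import Pool.Agent.U963.LN.Lau

/-!
# The order of the Vassiliev invariants which detect a knot: linear in the size, from below and from above

Sliced diagrams (starting library `Pool.Agent.H835R2.Knot.Defs`): `Word` (lists of maxima `birth i b`, minima
`death i` and crossings `pos i`, `neg i`, read from top to bottom), `IsKnot`, `Isotopic` (planar isotopy and
Reidemeister moves), `crossings`, `IsInvariant v`, `DegreeLE n v` (`v` is a Vassiliev invariant of order at most
`n`: all alternating sums over the switchings of `n + 1` crossings vanish), `circle`; `run x Front.empty` is the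
set of the strands below `x`, with their directions `dir`.

The knots (`Pool.Agent.U963.LN.Words`, `Pool.Agent.U963.LN.Clo`), for braid words on the strands `0, 1, 2, …`, where
`(true, i)` is the crossing `pos i` and `(false, i)` the crossing `neg i`:

* `aw i b = [(b, i), (b, i)]`: the word `a_i = σ_i ^ 2` (`b = true`) or its inverse (`b = false`);
* `zw b ε m`, here with all signs `ε i = true`: `z_0 = σ_0 ^ 2`, `z_{m+1} = a_{m+1} z_m a_{m+1}⁻¹` (`b = true`), or
  the inverse of this (`b = false`);
* `xw true true ε m = [a_{m+1}, z_m]`;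
* `tw k = σ_{k-1} ⋯ σ_0`;
* `clo k w`: the closure of the word `w` on `k` strands directed downwards;
* `kn true true ε m = clo (m + 3) ([a_{m+1}, z_m] σ_{m+1} ⋯ σ_0)`.

Proof.  `[a_{m+1}, z_m]` is equal to the iterated commutator `[a_{m+1}, [a_m, …, [a_1, a_0]]]` in the braid group,
since `a_{k+1}` commutes with `z_{k-1}`.  The values of the state model of the Jones polynomial at the closures
are computed with partial closures in the Temperley-Lieb algebra: three values satisfy a linear recursion
with a `3 × 3` matrix, of which the value at `K_n` (minus that at the circle) is an eigenvector.  The upper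
bound: a Laurent polynomial with exponents between `-k` and `k` which vanishes to the order `2 k + 1` at `1` is
zero.
-/

set_option autoImplicit false

namespace Pool.Agent.Results.MP_5f6b43_gt.LinearOrder

open LaurentPolynomial
open Pool.Agent.H835R2.Knot
open Pool.Agent.U963.LN (kn)

/-- `J` is the Jones polynomial of oriented links in the variable `s = T 1`, `t = s ^ 2`: it is an isotopy
invariant, it has the value `-(s + s⁻¹)` at the circle (so `J = -(s + s⁻¹) V` in the usual normalisation), and
`t⁻¹ J(L₊) - t J(L₋) = (t^{1/2} - t^{-1/2}) J(L₀)`, where `L₊`, `L₋`, `L₀` differ at one place, at which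
two neighbouring strands with the same direction cross or run in parallel. -/
structure IsJones (J : Word → ℤ[T;T⁻¹]) : Prop where
  iso : ∀ D E, Isotopic D E → J D = J E
  circle : J circle = -(T 1 + T (-1))
  skein : ∀ (x y : Word) (i : ℕ), (run x Front.empty).dir i = (run x Front.empty).dir (i + 1) →
    T (-2) * J (x ++ [.pos i] ++ y) - T 2 * J (x ++ [.neg i] ++ y) = (T 1 - T (-1)) * J (x ++ y)

/-- `K_n`, `n ≥ 2`, is the closure of the braid `[a_{n-1}, a_{n-2} ⋯ a_1 a_0 a_1⁻¹ ⋯ a_{n-2}⁻¹] σ_{n-1} ⋯ σ_0` on
the strands `0, …, n`, where `a_i = σ_i ^ 2`. -/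
def K (n : ℕ) : Word := kn true true (fun _ => true) (n - 2)

/-- There is a Jones polynomial `J` such that:

* For every `n ≥ 2`, `K_n` is a diagram of a knot with `9 n - 8` crossings (and with `11 n - 6` maxima, minima
  and crossings), and `J(K_n) / J(O) = 1 - (1 - t)(1 - t³) (-(1 - t)(t⁻¹ + t))^{n-2}` for `t = T 2`.  All
  Vassiliev invariants of order less than `n`, with values in any abelian group, have the same value at
  `K_n` and at the circle `O`, but some rational Vassiliev invariant of order at most `n` has not.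
* Conversely, let `D` be a diagram of a knot with `N` maxima, minima and crossings.  If `J(D) ≠ J(O)`,
  then some rational Vassiliev invariant of order at most `6 N` has different values at `D` and `O`. -/
theorem result : ∃ J : Word → ℤ[T;T⁻¹], IsJones J ∧
    (∀ n : ℕ, 2 ≤ n → IsKnot (K n) ∧ crossings (K n) = 9 * n - 8 ∧ (K n).length = 11 * n - 6 ∧
      J (K n) = J Pool.Agent.H835R2.Knot.circle *
        (1 - (1 - T 2) * (1 - T 6) * (-(1 - T 2) * (T (-2) + T 2)) ^ (n - 2)) ∧
      (∀ (A : Type) [AddCommGroup A] (v : Word → A) (d : ℕ), d < n → IsInvariant v → DegreeLE d v →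
        v (K n) = v Pool.Agent.H835R2.Knot.circle) ∧
      ∃ v : Word → ℚ, IsInvariant v ∧ DegreeLE n v ∧ v (K n) ≠ v Pool.Agent.H835R2.Knot.circle) ∧
    (∀ D : Word, IsKnot D → J D ≠ J Pool.Agent.H835R2.Knot.circle →
      ∃ v : Word → ℚ, IsInvariant v ∧ DegreeLE (6 * D.length) v ∧
        v D ≠ v Pool.Agent.H835R2.Knot.circle) := by
  refine ⟨Pool.Agent.U963.LP.jP, ⟨fun D E h => Pool.Agent.U963.LN.valG_iso Pool.Agent.U963.LP.hT h,
    Pool.Agent.U963.LN.val_circle, fun x y i h => ?_⟩, fun n hn => ?_, fun D hD h => ?_⟩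
  · have h1 := Pool.Agent.U963.LN.valG_skein Pool.Agent.U963.LP.hT x y i h
    rw [T_pow, T_pow] at h1
    exact h1
  · obtain ⟨m, rfl⟩ : ∃ m, n = m + 2 := ⟨n - 2, by omega⟩
    have e : K (m + 2) = kn true true (fun _ => true) m := rfl
    rw [e]
    refine ⟨Pool.Agent.U963.LN.kn_knot _ _ _ _, ?_, ?_, ?_, ?_, ?_⟩
    · rw [Pool.Agent.U963.LN.kn_crossings]; omega
    · rw [Pool.Agent.U963.LN.kn_length]; omega
    · have h1 := Pool.Agent.U963.LN.val_closed Pool.Agent.U963.LP.hT m
      have h2 : Pool.Agent.U963.LP.jP Pool.Agent.H835R2.Knot.circle = -(T 1 + T (-1)) :=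
        Pool.Agent.U963.LN.val_circle
      rw [h2, show m + 2 - 2 = m by omega]
      rw [T_pow, T_pow, T_pow] at h1
      exact h1
    · intro A _ v d hd hv h
      exact Pool.Agent.U963.LN.kn_vas hv h _ _ _ m (by omega)
    · exact ⟨_, Pool.Agent.U963.LN.vn_inv (m + 2), Pool.Agent.U963.LN.vn_deg (m + 2),
        Pool.Agent.U963.LN.vn_kn_ne m⟩
  · obtain ⟨j, hj, h1⟩ := Pool.Agent.U963.LP.detect hD h
    exact ⟨_, Pool.Agent.U963.LN.vn_inv j,
      Pool.Agent.Y466.FT.DegreeLE.mono hj (Pool.Agent.U963.LN.vn_deg j), h1⟩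

end Pool.Agent.Results.MP_5f6b43_gt.LinearOrder
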