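import Pool.Agent.U449.BV.R
import Pool.Agent.Results.MP_5f6b43_gt.TwistCodimensionOrder

/-!
# Vassiliev invariants detect the members of twist families near the values of polynomials on arbitrary thin sets

Let `0 ≤ κ`, `m + k κ < δ ≤ k`, let `p` be a large prime, `f(x, y)` ANY polynomial of bounded degree over the field of `p ^ k` elements
with a monomial which contains both variables (for example `f = x y`), let `A`, `B` be ARBITRARY subsets of this field with at least
`p ^ δ` elements, and `g`, `h` ARBITRARY functions. For all the pairs `(a, b)` in `A × B`, apart from a proportion of at most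
`p ^ (-ρ)`, and for ALL integral vectors `w` at a distance of at most `p ^ κ` from the vector of the least residues of the `k`
coordinates of `f(a, b) + g(a) + h(b)`: ALL the oriented links given by the
diagram with `w_j` crossings in the `j`-th twist site are separated from the unknot by Vassiliev invariants of an order which does
not depend on `w`. Here `m = k - n` for a connected diagram with `k` twist sites and `n + 1` pieces if all sites are filled
trivially, `m = k - (l - 1)` for the closures of the braids `σ_{i 0} ^ {w 0} ⋯ σ_{i (k-1)} ^ {w (k-1)}` on `l` strands, and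
`m = v - 1` for the plane surfaces with `v` discs and `k` twisted bands.
More generally, this holds for the values `F(a, b)` of all vector functions of two variables with few coincidences
(`RareV`), on arbitrary finite sets.

Since the sets and the functions `g` and `h` are arbitrary, the vectors have no arithmetic structure, and a vector may be
taken by very many pairs. So the number of the exceptions (starting library) does not give the result directly. Proof: the
inequality of Cauchy and Schwarz; for most pairs `a, a'` the difference `F(a, b) - F(a', b)` is small for few `b`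
(`Pool.Agent.U449.BV`).
-/

set_option autoImplicit false

namespace Pool.Agent.Results.MP_5f6b43_gt.MixedPolynomials

open Finset Pool.Agent.H891R2.Jones Pool.Agent.H891R2.MT Pool.Agent.H891R2.SI Pool.Agent.Y463.CD
  Pool.Agent.Y463.VC
open Pool.Agent.U449.BV (RareV OnProductsV on_products_box coordinates)

/-- For ALL `w ∈ ℤ^k` with `|w_i - x_i| ≤ W` for all `i` the link `O.fill w` is not hidden: with all directions it is separated from
the unknot by Vassiliev invariants of order at most `ord k c`. -/
def NearSites {k : ℕ} (O : Sites k) (W : ℝ) (x : Fin k → ℝ) : Prop :=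
  ∀ w : Fin k → ℤ, (∀ i, |(w i : ℝ) - x i| ≤ W) → ¬ Hidden (ord k O.crossings.length) (O.fill w)

/-- The same for the closed braids `σ_{i 0} ^ {w 0} ⋯ σ_{i (k-1)} ^ {w (k-1)}` on `m` strands. -/
def NearBraids {k : ℕ} (m : ℕ) (i : Fin k → ℕ) (hi : ∀ j, i j + 1 < m) (W : ℝ) (x : Fin k → ℝ) : Prop :=
  ∀ w : Fin k → ℤ, (∀ i, |(w i : ℝ) - x i| ≤ W) → ¬ Hidden (ord k 0) ((braidSites m i hi).fill w)

/-- The same for the boundaries of the surfaces given by a ribbon graph, with `w e` half twists in the band `e`. -/
def NearGraph {k : ℕ} (Γ : Ribbon k) (W : ℝ) (x : Fin k → ℝ) : Prop :=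
  ∀ w : Fin k → ℤ, (∀ i, |(w i : ℝ) - x i| ≤ W) → ¬ Hidden (ord k 0) (Γ.link w)

/-- **Theorem.** Let `k ≥ 1`, `κ ≥ 0`. The property `NearSites O`, for a connected diagram `O` with `k` twist sites, `NearBraids`, for the
closures of the braids on `m` strands in which every generator occurs, and `NearGraph Γ`, for connected plane graphs `Γ` with `k`
edges and `Γ.verts` vertices, with windows of length `X ^ κ`, hold for almost all values of vector functions of two
variables with few coincidences, on arbitrary finite sets of at least `X ^ δ` elements, `e + k κ < δ ≤ k` (`OnProductsV`), with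
`e = k - n` (see `TwistCodimensionOrder` for the condition on `n`), `e = k - (m - 1)` and `e = Γ.verts - 1`.
The tuples of the least residues modulo `p` of the coordinates (with respect to a basis over the field of `p` elements) of
`f(a, b) + g(a) + h(b)` in a field of `p ^ k` elements are such a function, with `X = p`, for all polynomials `f` over this
field with a monomial which contains both variables, arbitrary functions `g` and `h`, and arbitrary finite subsets. -/
theorem result :
    (∀ k : ℕ, 0 < k → ∀ κ : ℝ, 0 ≤ κ →
      (∀ O : Sites k, O.Connected → ∀ n : ℕ, (n + 1 ≤ pieces (flat O) ∨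
        ∃ q : Fin k → ℤ, ∀ R : Finset (Fin k), R.card < n → det (O.fill (q + one R)) = 0) →
          OnProductsV k (((k - n : ℕ) : ℝ) + k * κ) κ (NearSites O)) ∧
      (∀ (m : ℕ) (i : Fin k → ℕ) (hi : ∀ j, i j + 1 < m), (∀ x, x + 1 < m → ∃ j, i j = x) →
        OnProductsV k (((k - (m - 1) : ℕ) : ℝ) + k * κ) κ (NearBraids m i hi)) ∧
      ∀ Γ : Ribbon k, Γ.Planar → OnProductsV k (((Γ.verts - 1 : ℕ) : ℝ) + k * κ) κ (NearGraph Γ)) ∧
    ∀ (p : ℕ) [Fact p.Prime] (k : ℕ) (K : Type) [Field K] [Algebra (ZMod p) K] (e : Module.Basis (Fin k) (ZMod p) K)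
      (d : ℕ) (f : MvPolynomial (Fin 2) K), f.totalDegree ≤ d → (∃ m ∈ f.support, m 0 ≠ 0 ∧ m 1 ≠ 0) →
      ∀ (g h : K → K) (A B : Finset K),
        RareV d A B (fun a b i => (((e.repr (MvPolynomial.eval ![a, b] f + g a + h b) i).val : ℕ) : ℝ)) := by
  refine ⟨fun k hk κ hκ => ⟨fun O hO n hn => ?_, fun m i hi hall => ?_, fun Γ hΓ => ?_⟩, coordinates⟩
  · exact on_products_box {w : Fin k → ℤ | Hidden (ord k O.crossings.length) (O.fill w)}
      ((3 ^ k * (3 * O.crossings.length + 6 * k + 1)) ^ n) hκ
      (fun N => ((TwistCodimensionOrder.result.1 k hk O hO).2.2 n hn).2.2 N)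
  · exact on_products_box {w : Fin k → ℤ | Hidden (ord k 0) ((braidSites m i hi).fill w)}
      ((3 ^ k * (6 * k + 1)) ^ (m - 1)) hκ (fun N => (TwistCodimensionOrder.result.2.1 k m hk i hi hall).2 N)
  · exact on_products_box {w : Fin k → ℤ | Hidden (ord k 0) (Γ.link w)}
      ((3 ^ k * (6 * k + 1)) ^ (k + 1 - Γ.verts)) hκ (fun N => (TwistCodimensionOrder.result.2.2 k hk Γ hΓ).2 N)

end Pool.Agent.Results.MP_5f6b43_gt.MixedPolynomials
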