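import Pool.Agent.U999.RSt.Star
import Pool.Agent.W642.RV.Vas
import Pool.Agent.W320.RV.Closed
import Pool.Agent.W337.RV.FPoly

/-!
# Vassiliev invariants of order two detect random petal knots and random stackings of torus knot projections

Starting library.  `Pool.Agent.H832R3.VJ.Defs`: `Dia` (an oriented link diagram with the finite set of its
marked points), `Dia.IsLink`, `Separated d X Y` (some integer valued Vassiliev invariant of order at most `d`
has different values on `X` and `Y`), `unknot`.  `Pool.Agent.W642.RS.Defs`: `Stack N n` (the Gauss word of a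
closed curve with `N` crossings which is divided into `n` consecutive arcs without self-crossings, any two of
which cross at most once), `IsPolygon r D` (the crossings of the stack `D` are exactly the crossings of the edges
of the closed polygon with vertices `r 0, …, r (n - 1)`, numbers of points on a circle).
`Pool.Agent.W642.RV.Defs`: `stackDia D h` (the diagram of the stack `D` with the arc `i` at height `h i`).

`Pool.Agent.U999.RSt.Star` (new): `star n k h` is the star polygon `{n/k}`, whose edges join the points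
`k j` and `k (j + 1)` modulo `n`: the usual projection of the torus knot `T(n, k)`.  For `n = 2 m + 1`, `k = m`
it is the projection of the petal diagrams with `n` petals (with the outer loops pulled tight).
-/

set_option autoImplicit false

namespace Pool.Agent.Results.MP_5f6b43_gt.RandomPetalKnots

open Finset Pool.Agent.H832R2.JR Pool.Agent.H832R3.VJ Pool.Agent.W642.RS Pool.Agent.W642.RV
  Pool.Agent.U999.RSt

open Classical in
/-- There is an absolute constant `C` such that the following holds for every link diagram `Y`, for instance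
for `Y = unknot`.

* (torus knot projections) Let `k` be prime to `n`, `2 ≤ k`, `2 k < n`.  There are stacks which describe the
  star polygon `{n/k}`; each of them has exactly `n (k - 1)` crossings, and all its stackings are diagrams of
  links.  If its `n` edges are put at the heights `1, …, n` in a random order, then the knot is separated from
  `Y` by a Vassiliev invariant of order at most two, except with a probability at most
  `C n ^ (1/2) (k - 1) ^ (-3/4)`.
* (petal diagrams) For a random petal diagram with `n = 2 m + 1 ≥ 5` petals the exceptional probability is at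
  most `C n ^ (-1/4)`.
* (random arc presentations) The same bound `C n ^ (-1/4)` holds for the closed polygon whose vertices
  `r 0, …, r (n - 1)` are a random permutation of `n` points on a circle and whose edges are put at random
  heights. -/
theorem result : ∃ C : ℝ, 0 < C ∧ ∀ Y : Dia,
    (∀ (n k : ℕ) (h : Nat.Coprime k n), 2 ≤ k → 2 * k < n →
      (∃ (N : ℕ) (D : Stack N n), IsPolygon (star n k h) D) ∧
      ∀ (N : ℕ) (D : Stack N n), IsPolygon (star n k h) D →
        N = n * (k - 1) ∧ (∀ s : Equiv.Perm (Fin n), (stackDia D s).IsLink) ∧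
        ((k : ℝ) - 1) ^ (3 / 4 : ℝ) *
          (#{s : Equiv.Perm (Fin n) | ¬ Separated 2 (stackDia D s) Y} : ℝ) ≤
            C * (n : ℝ) ^ (1 / 2 : ℝ) * (n.factorial : ℝ)) ∧
    (∀ (m : ℕ) (h : Nat.Coprime m (2 * m + 1)), 2 ≤ m →
      ∀ (N : ℕ) (D : Stack N (2 * m + 1)), IsPolygon (star (2 * m + 1) m h) D →
        (2 * (m : ℝ) + 1) ^ (1 / 4 : ℝ) *
          (#{s : Equiv.Perm (Fin (2 * m + 1)) | ¬ Separated 2 (stackDia D s) Y} : ℝ) ≤
            C * ((2 * m + 1).factorial : ℝ)) ∧
    (∀ (n : ℕ) (N : Equiv.Perm (Fin n) → ℕ) (D : ∀ r : Equiv.Perm (Fin n), Stack (N r) n),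
      (∀ r, IsPolygon r (D r)) →
        (n : ℝ) ^ (1 / 4 : ℝ) *
          (#{x : Equiv.Perm (Fin n) × Equiv.Perm (Fin n) |
            ¬ Separated 2 (stackDia (D x.1) x.2) Y} : ℝ) ≤ C * (n.factorial : ℝ) ^ 2) := by
  obtain ⟨C1, hC1, h1⟩ := stack_sep Pool.Agent.W337.RV.fpoly
  obtain ⟨C2, hC2, h2⟩ := arc_sep Pool.Agent.W337.RV.fpoly
  have hstar : ∀ (Y : Dia) (n k : ℕ) (h : Nat.Coprime k n), 2 ≤ k → 2 * k < n →
      ∀ (N : ℕ) (D : Stack N n), IsPolygon (star n k h) D →
        ((k : ℝ) - 1) ^ 3 * (#{s : Equiv.Perm (Fin n) | ¬ Separated 2 (stackDia D s) Y} : ℝ) ^ 4 ≤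
          C1 * (n : ℝ) ^ 2 * (n.factorial : ℝ) ^ 4 := by
    intro Y n k h hk hkn N D hD
    have h3 := h1 N n D Y
    have h4 := star_crossings hk hkn h D hD
    have hn : (0 : ℝ) < n := by
      have : 0 < n := by omega
      exact_mod_cast this
    have h5 : (N : ℝ) = n * ((k : ℝ) - 1) := by
      rw [h4]
      push_cast [Nat.cast_sub (show 1 ≤ k by omega)]
      ring
    rw [h5] at h3
    set x : ℝ := (#{s : Equiv.Perm (Fin n) | ¬ Separated 2 (stackDia D s) Y} : ℝ) with hx
    have h6 : (n : ℝ) ^ 3 * (((k : ℝ) - 1) ^ 3 * x ^ 4) ≤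
        (n : ℝ) ^ 3 * (C1 * (n : ℝ) ^ 2 * (n.factorial : ℝ) ^ 4) := by
      calc (n : ℝ) ^ 3 * (((k : ℝ) - 1) ^ 3 * x ^ 4) = (n * ((k : ℝ) - 1)) ^ 3 * x ^ 4 := by ring
        _ ≤ C1 * (n : ℝ) ^ 5 * (n.factorial : ℝ) ^ 4 := h3
        _ = _ := by ring
    exact le_of_mul_le_mul_left h6 (by positivity)
  have hroot : (0 : ℝ) ≤ C1 ^ (1 / 4 : ℝ) := by positivity
  refine ⟨C1 ^ (1 / 4 : ℝ) + (125 * C1) ^ (1 / 4 : ℝ) + C2, by positivity, fun Y => ⟨?_, ?_, ?_⟩⟩
  · intro n k h hk hkn
    refine ⟨Pool.Agent.W902.RS.exist _ _, fun N D hD => ⟨star_crossings hk hkn h D hD, ?_, ?_⟩⟩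
    · intro s
      have hN : 0 < N := by
        rw [star_crossings hk hkn h D hD]
        exact Nat.mul_pos (by omega) (by omega)
      exact isLink Pool.Agent.W320.RV.closed hN D.G _ _
    · have h3 := hstar Y n k h hk hkn N D hD
      set x : ℝ := (#{s : Equiv.Perm (Fin n) | ¬ Separated 2 (stackDia D s) Y} : ℝ) with hx
      have hk1 : (0 : ℝ) < (k : ℝ) - 1 := by
        have : (2 : ℝ) ≤ k := by exact_mod_cast hk
        linarith
      have h4 : ((k : ℝ) - 1) ^ 3 * x ^ 4 ≤ (C1 * (n : ℝ) ^ 2) * (n.factorial : ℝ) ^ 4 := h3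
      have h5 := root_le (by positivity) (by positivity) (by positivity) (by positivity) h4
      have e1 : (((k : ℝ) - 1) ^ 3) ^ (1 / 4 : ℝ) = ((k : ℝ) - 1) ^ (3 / 4 : ℝ) := by
        rw [← Real.rpow_natCast, ← Real.rpow_mul hk1.le]
        norm_num
      have e2 : (C1 * (n : ℝ) ^ 2) ^ (1 / 4 : ℝ) = C1 ^ (1 / 4 : ℝ) * (n : ℝ) ^ (1 / 2 : ℝ) := by
        rw [Real.mul_rpow hC1.le (by positivity), ← Real.rpow_natCast (n : ℝ),
          ← Real.rpow_mul (by positivity)]
        norm_num
      rw [e1, e2] at h5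
      refine h5.trans ?_
      gcongr
      have : (0 : ℝ) ≤ (125 * C1) ^ (1 / 4 : ℝ) := by positivity
      linarith
  · intro m h hm N D hD
    have h3 := hstar Y (2 * m + 1) m h hm (by omega) N D hD
    set x : ℝ := (#{s : Equiv.Perm (Fin (2 * m + 1)) | ¬ Separated 2 (stackDia D s) Y} : ℝ) with hx
    have hx0 : 0 ≤ x := by positivity
    have hm2 : (2 : ℝ) ≤ m := by exact_mod_cast hm
    push_cast at h3
    have h6 : (2 * (m : ℝ) + 1) ≤ 5 * ((m : ℝ) - 1) := by linarith
    have h7 : (2 * (m : ℝ) + 1) ^ 3 ≤ 125 * ((m : ℝ) - 1) ^ 3 := by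
      calc (2 * (m : ℝ) + 1) ^ 3 ≤ (5 * ((m : ℝ) - 1)) ^ 3 := by gcongr
        _ = _ := by ring
    have h8 : (2 * (m : ℝ) + 1) ^ 2 * ((2 * (m : ℝ) + 1) * x ^ 4) ≤
        (2 * (m : ℝ) + 1) ^ 2 * ((125 * C1) * ((2 * m + 1).factorial : ℝ) ^ 4) := by
      calc (2 * (m : ℝ) + 1) ^ 2 * ((2 * (m : ℝ) + 1) * x ^ 4) = (2 * (m : ℝ) + 1) ^ 3 * x ^ 4 := by
            ring
        _ ≤ 125 * ((m : ℝ) - 1) ^ 3 * x ^ 4 := by gcongr
        _ = 125 * (((m : ℝ) - 1) ^ 3 * x ^ 4) := by ring
        _ ≤ 125 * (C1 * (2 * (m : ℝ) + 1) ^ 2 * ((2 * m + 1).factorial : ℝ) ^ 4) := by gcongr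
        _ = _ := by ring
    have h9 := le_of_mul_le_mul_left h8 (by positivity)
    have h10 := root_le (by positivity) (by positivity) (by positivity) hx0 h9
    refine h10.trans ?_
    gcongr
    linarith
  · intro n N D hD
    refine (h2 n N D hD Y).trans ?_
    gcongr
    have : (0 : ℝ) ≤ (125 * C1) ^ (1 / 4 : ℝ) := by positivity
    linarith

end Pool.Agent.Results.MP_5f6b43_gt.RandomPetalKnots
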